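import Pool.Agent.N881.GW.I
import Pool.Agent.N881.GW.G

/-!
# The continuation of the L-functions of all varieties, read off from the Dirichlet coefficients

`X` is a projective variety over a number field `K` (for example `K = ℚ`), `e = i/2 + 1`, and
`L(H^i(X), s) = ∑ a_n n^{-s}` for `Re s > e`.  The theorem characterises the holomorphic continuation of
`L(H^i(X), s)` to a half-plane `Re s > e - δ`, and to `ℂ` (this is Q1), in two ways by the coefficients
`a_n`: by the size of the Gaussian averages of `a_n n^{-e-iτ}` in windows around `x`, with the sharp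
exponents, and by the convergence of the Gaussian means.  Nothing is assumed about the growth of the
continuation, and there is no functional equation.

The definitions of `IsEulerSystem` and `LFun` are in `Pool/Agent/TH958/BV/Defs.lean`.
-/

set_option autoImplicit false

namespace Pool.Agent.Results.MP_039d94_nt.CoefficientCriterion

open NumberField IsDedekindDomain MeasureTheory Filter Topology Polynomial Set
open Pool.Agent.TH958.BV

/-- The abscissa of the edge of absolute convergence. -/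
noncomputable def edge (i : ℕ) : ℝ := (i : ℝ) / 2 + 1

/-- The Gaussian average of the `a_n n^{-e-iτ}` in the window around `x`,
`√(A / (π log x)) ∑ a_n n^{-e-iτ} exp (-A (log (n/x))² / log x)`. -/
noncomputable def window (a : ℕ → ℂ) (i : ℕ) (A x τ : ℝ) : ℂ :=
  √(A / (Real.pi * Real.log x)) * ∑' n : ℕ, LSeries.term a (edge i + τ * Complex.I) n *
    Real.exp (-(A * (Real.log n - Real.log x) ^ 2 / Real.log x))

/-- The average of the density `P(t)`, `t = log n`:
`√(A / (π log x)) ∫_0^∞ P(t) e^{-iτt} exp (-A (t - log x)² / log x) dt`. -/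
noncomputable def mainTerm (P : ℂ[X]) (A x τ : ℝ) : ℂ :=
  √(A / (Real.pi * Real.log x)) * ∫ t in Ioi (0 : ℝ), P.eval (t : ℂ) *
    Complex.exp (-(τ * Complex.I * t)) * Real.exp (-(A * (t - Real.log x) ^ 2 / Real.log x))

/-- The Gaussian mean `∑ a_n n^{-s} exp (-α (log n)²)`. -/
noncomputable def gaussMean (a : ℕ → ℂ) (α : ℝ) (s : ℂ) : ℂ :=
  ∑' n : ℕ, LSeries.term a s n * Real.exp (-(α * Real.log n ^ 2))

/-- The Gaussian mean `∫_0^∞ P(t) e^{-(s-e)t} exp (-α t²) dt` of the density. -/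
noncomputable def gaussMain (P : ℂ[X]) (i : ℕ) (α : ℝ) (s : ℂ) : ℂ :=
  ∫ t in Ioi (0 : ℝ), P.eval (t : ℂ) * Complex.exp (-((s - edge i) * t)) *
    Real.exp (-(α * t ^ 2))

/-- The polar part `∑ P_k k! / (s - e)^{k+1}`, the Laplace transform of `P`. -/
noncomputable def polarPart (P : ℂ[X]) (i : ℕ) (s : ℂ) : ℂ :=
  P.sum fun k c => c * ((k.factorial : ℂ) / (s - edge i) ^ (k + 1))

/-- The continuation of Q1: meromorphic on `ℂ`, holomorphic for `s ≠ e`, and for odd `i` entire. -/
def Q1 {K : Type} [Field K] [NumberField K] (B : HeightOneSpectrum (𝓞 K) → ℂ[X]) (i : ℕ) : Prop :=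
  ∃ Λ : ℂ → ℂ, (∀ s : ℂ, s ≠ edge i → AnalyticAt ℂ Λ s) ∧ MeromorphicAt Λ (edge i) ∧
    (Odd i → AnalyticAt ℂ Λ (edge i)) ∧ ∀ s : ℂ, edge i < s.re → Λ s = LFun B s

/-- **The coefficient criterion.**  Let `X` be a projective variety of dimension `d` over a number field
`K`, and let `B_v` be the Euler factors of `L(H^i(X), s)`, with constant term `1` and, at the finitely
many bad primes, without poles for `Re s > e`.  There are numbers `a_n` such that the Dirichlet series
`∑ a_n n^{-s}` converges absolutely to `L(H^i(X), s)` for `Re s > e`, with the following properties.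

1. For every polynomial `P` and every `δ > 0` the following are equivalent:
   `L(H^i(X), s) - ∑ P_k k! / (s - e)^{k+1}` has a holomorphic continuation to `Re s > e - δ`;
   for all `0 < A < δ/2` the windows, minus the main term of `P`, are `O(x^{-A})`, locally uniformly in
   `τ`; the Gaussian means, minus those of `P`, converge locally uniformly for `Re s > e - δ`, `α → 0`.
2. The same for the continuation to `ℂ`, with all `A > 0`.
3. The limit of the Gaussian means is then the continuation.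
4. `L(H^i(X), s)` has the continuation of Q1 if and only if there is a polynomial `P`, `P = 0` if `i`
   is odd, such that for all `A > 0` the windows, minus the main term of `P`, are `O(x^{-A})`, locally
   uniformly in `τ`. -/
theorem result (K : Type) [Field K] [NumberField K] (n : ℕ)
    (X : Set (MvPolynomial (Fin n) (𝓞 K))) (d i N : ℕ) (B : HeightOneSpectrum (𝓞 K) → ℂ[X])
    (_ : IsEulerSystem X d i N B) (_ : ∀ v, (B v).eval 0 = 1)
    (_ : ∀ (v : HeightOneSpectrum (𝓞 K)) (s : ℂ), edge i < s.re →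
      (B v).eval ((Ideal.absNorm v.asIdeal : ℂ) ^ (-s)) ≠ 0) :
    ∃ a : ℕ → ℂ, (∀ s : ℂ, edge i < s.re → LSeriesHasSum a s (LFun B s)) ∧
      (∀ (P : ℂ[X]) (δ : ℝ), 0 < δ → List.TFAE [
        ∃ Λ : ℂ → ℂ, (∀ s : ℂ, edge i - δ < s.re → AnalyticAt ℂ Λ s) ∧
          ∀ s : ℂ, edge i < s.re → Λ s = LFun B s - polarPart P i s,
        ∀ A : ℝ, 0 < A → 2 * A < δ → ∀ T : ℝ, ∃ C : ℝ, ∀ τ x : ℝ, |τ| ≤ T → 2 ≤ x →
          ‖window a i A x τ - mainTerm P A x τ‖ ≤ C * x ^ (-A),
        ∃ G : ℂ → ℂ, TendstoLocallyUniformlyOn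
          (fun α s => gaussMean a α s - gaussMain P i α s) G (𝓝[>] 0)
          {s : ℂ | edge i - δ < s.re}]) ∧
      (∀ P : ℂ[X], List.TFAE [
        ∃ Λ : ℂ → ℂ, Differentiable ℂ Λ ∧
          ∀ s : ℂ, edge i < s.re → Λ s = LFun B s - polarPart P i s,
        ∀ A : ℝ, 0 < A → ∀ T : ℝ, ∃ C : ℝ, ∀ τ x : ℝ, |τ| ≤ T → 2 ≤ x →
          ‖window a i A x τ - mainTerm P A x τ‖ ≤ C * x ^ (-A),
        ∃ G : ℂ → ℂ, TendstoLocallyUniformly
          (fun α s => gaussMean a α s - gaussMain P i α s) G (𝓝[>] 0)]) ∧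
      (∀ (P : ℂ[X]) (δ : ℝ) (Λ : ℂ → ℂ), (∀ s : ℂ, edge i - δ < s.re → AnalyticAt ℂ Λ s) →
        (∀ s : ℂ, edge i < s.re → Λ s = LFun B s - polarPart P i s) →
        TendstoLocallyUniformlyOn (fun α s => gaussMean a α s - gaussMain P i α s) Λ (𝓝[>] 0)
          {s : ℂ | edge i - δ < s.re}) ∧
      (Q1 B i ↔ ∃ P : ℂ[X], (Odd i → P = 0) ∧
        ∀ A : ℝ, 0 < A → ∀ T : ℝ, ∃ C : ℝ, ∀ τ x : ℝ, |τ| ≤ T → 2 ≤ x →
          ‖window a i A x τ - mainTerm P A x τ‖ ≤ C * x ^ (-A)) := by
  rename_i hB h0 hfin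
  obtain ⟨a, ha⟩ := Pool.Agent.N881.GW.isDS_LFun hB h0 hfin
  have ha' : ∀ s : ℂ, edge i < s.re → LSeriesHasSum a s (LFun B s) := ha
  -- the half-plane `Re s > e - δ`
  have hset : ∀ δ : ℝ, {s : ℂ | ∃ b ∈ ({δ} : Set ℝ), edge i - b < s.re} =
      {s : ℂ | edge i - δ < s.re} := fun δ => by ext s; simp
  have hcont : ∀ (P : ℂ[X]) (δ : ℝ), Pool.Agent.N881.GW.Cont (LFun B) (edge i) P {δ} ↔
      ∃ Λ : ℂ → ℂ, (∀ s : ℂ, edge i - δ < s.re → AnalyticAt ℂ Λ s) ∧
          ∀ s : ℂ, edge i < s.re → Λ s = LFun B s - polarPart P i s := by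
    intro P δ
    have hop : IsOpen {s : ℂ | edge i - δ < s.re} :=
      isOpen_lt continuous_const Complex.continuous_re
    constructor
    · rintro ⟨H, h1, h2⟩
      refine ⟨fun s => H (s - edge i), fun s hs => ?_, fun s hs => ?_⟩
      · have hd : DifferentiableOn ℂ (fun s => H (s - edge i)) {s : ℂ | edge i - δ < s.re} := by
          intro w hw
          have hw' : edge i - δ < w.re := hw
          have h3 := h1 (w - edge i) ⟨δ, rfl, by simp; linarith⟩
          exact (h3.comp w ((differentiable_id.sub_const (edge i : ℂ)) w)).differentiableWithinAt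
        exact hd.analyticAt (hop.mem_nhds hs)
      · have h4 := h2 (s - edge i) (by simpa using hs)
        rw [add_sub_cancel] at h4
        exact h4
    · rintro ⟨Λ, h1, h2⟩
      refine ⟨fun z => Λ (edge i + z), fun z hz => ?_, fun z hz => ?_⟩
      · obtain ⟨b, rfl, hlt⟩ := hz
        have h3 := (h1 (edge i + z) (by simp; linarith)).differentiableAt
        exact h3.comp z ((differentiable_id.const_add (edge i : ℂ)) z)
      · have h4 := h2 (edge i + z) (by simpa using hz)
        beta_reduce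
        rw [h4]
        unfold polarPart Pool.Agent.N881.GW.lapP
        rw [add_sub_cancel_left]
  have hentire : ∀ P : ℂ[X], Pool.Agent.N881.GW.Cont (LFun B) (edge i) P (Ioi 0) ↔
      ∃ Λ : ℂ → ℂ, Differentiable ℂ Λ ∧
          ∀ s : ℂ, edge i < s.re → Λ s = LFun B s - polarPart P i s := by
    intro P
    have hall : ∀ z : ℂ, ∃ b ∈ Ioi (0 : ℝ), -b < z.re := fun z =>
      ⟨|z.re| + 1, by show 0 < |z.re| + 1; positivity, by have := neg_abs_le z.re; linarith⟩
    constructor
    · rintro ⟨H, h1, h2⟩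
      refine ⟨fun s => H (s - edge i), fun s => ?_, fun s hs => ?_⟩
      · exact (h1 _ (hall _)).comp s ((differentiable_id.sub_const (edge i : ℂ)) s)
      · have h4 := h2 (s - edge i) (by simpa using hs)
        rw [add_sub_cancel] at h4
        exact h4
    · rintro ⟨Λ, h1, h2⟩
      refine ⟨fun z => Λ (edge i + z), fun z _ => ?_, fun z hz => ?_⟩
      · exact (h1 _).comp z ((differentiable_id.const_add (edge i : ℂ)) z)
      · have h4 := h2 (edge i + z) (by simpa using hz)
        beta_reduce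
        rw [h4]
        unfold polarPart Pool.Agent.N881.GW.lapP
        rw [add_sub_cancel_left]
  have hIoi : ∀ A : ℝ, ∃ b ∈ Ioi (0 : ℝ), 2 * A < b := fun A =>
    ⟨|2 * A| + 1, by show 0 < |2 * A| + 1; positivity, by have := le_abs_self (2 * A); linarith⟩
  have huniv : {s : ℂ | ∃ b ∈ Ioi (0 : ℝ), edge i - b < s.re} = Set.univ := by
    refine Set.eq_univ_of_forall fun s => ?_
    exact ⟨|edge i - s.re| + 1, by show 0 < |edge i - s.re| + 1; positivity,
      by have := le_abs_self (edge i - s.re); linarith⟩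
  have hwinall : ∀ P : ℂ[X], Pool.Agent.N881.GW.Cont (LFun B) (edge i) P (Ioi 0) ↔
      ∀ A : ℝ, 0 < A → ∀ T : ℝ, ∃ C : ℝ, ∀ τ x : ℝ, |τ| ≤ T → 2 ≤ x →
          ‖window a i A x τ - mainTerm P A x τ‖ ≤ C * x ^ (-A) := fun P =>
    (Pool.Agent.N881.GW.cont_iff_win ha' P (S := Ioi (0 : ℝ)) (fun b hb => hb) nonempty_Ioi).trans
      ⟨fun h A hA => h A hA (hIoi A), fun h A hA _ => h A hA⟩
  refine ⟨a, ha', fun P δ hδ => ?_, fun P => ?_, fun P δ Λ h1 h2 => ?_, ?_⟩
  · have hS : ∀ b ∈ ({δ} : Set ℝ), 0 < b := by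
      rintro b rfl
      exact hδ
    tfae_have 1 ↔ 2 := by
      rw [← hcont, Pool.Agent.N881.GW.cont_iff_win ha' P hS ⟨δ, rfl⟩]
      exact ⟨fun h A hA hAb => h A hA ⟨δ, rfl, hAb⟩, fun h A hA ⟨b, hb, hAb⟩ =>
        h A hA (by rw [Set.mem_singleton_iff] at hb; rwa [hb] at hAb)⟩
    tfae_have 1 ↔ 3 := by
      rw [← hcont, Pool.Agent.N881.GW.cont_iff_gauss ha' P hS ⟨δ, rfl⟩, hset]
      exact Iff.rfl
    tfae_finish
  · tfae_have 1 ↔ 2 := by
      rw [← hentire]
      exact hwinall P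
    tfae_have 1 ↔ 3 := by
      rw [← hentire, Pool.Agent.N881.GW.cont_iff_gauss ha' P (S := Ioi (0 : ℝ)) (fun b hb => hb)
        nonempty_Ioi, huniv]
      simp_rw [tendstoLocallyUniformlyOn_univ]
      exact Iff.rfl
    tfae_finish
  · rw [← hset]
    refine Pool.Agent.N881.GW.gauss_limit ha' P (fun s hs => ?_) h2
    obtain ⟨b, hb, hlt⟩ := hs
    rw [Set.mem_singleton_iff] at hb
    rw [hb] at hlt
    exact (h1 s hlt).differentiableAt
  · have h1 := Pool.Agent.N881.GW.q1_iff (e := edge i) (L := LFun B) (Odd i) (S := Ioi 0)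
      (fun b hb => hb) nonempty_Ioi
    have h2 : Q1 B i ↔ ∃ Λ : ℂ → ℂ, (∀ s : ℂ, (∃ b ∈ Ioi (0 : ℝ), edge i - b < s.re) →
        s ≠ edge i → AnalyticAt ℂ Λ s) ∧ MeromorphicAt Λ (edge i) ∧
        (Odd i → AnalyticAt ℂ Λ (edge i)) ∧ ∀ s : ℂ, edge i < s.re → Λ s = LFun B s := by
      unfold Q1
      have h3 : ∀ s : ℂ, ∃ b ∈ Ioi (0 : ℝ), edge i - b < s.re := fun s => by
        have : s ∈ {s : ℂ | ∃ b ∈ Ioi (0 : ℝ), edge i - b < s.re} := by rw [huniv]; trivial
        exact this
      refine exists_congr fun Λ => and_congr_left fun _ => ?_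
      exact ⟨fun h s _ hs => h s hs, fun h s hs => h s (h3 s) hs⟩
    rw [h2, h1]
    exact exists_congr fun P => and_congr_right fun _ => hwinall P

end Pool.Agent.Results.MP_039d94_nt.CoefficientCriterion
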