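import Pool.Agent.N60.EH.Var

/-!
# A Harnack inequality on the edge for the L-functions of all projective varieties

`X` is a smooth projective variety over a number field `K`, for example over `K = ℚ`.  The Euler
product `L(H^i(X), s)` converges absolutely for `Re s > i/2 + 1`, and on the edge
`Re s = i/2 + 1` it has boundary values `l(τ)`, `s = i/2 + 1 + iτ`, for almost all real `τ`.
Nothing is known in general about a continuation to a neighbourhood of a point of the edge.

The theorem says that at every point of the edge, at every scale `h ≤ 1/2`, the mean over the interval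
of length `h` of `|l|^c` is the same, up to an explicit constant, as the value of `|L|^c` at the
distance `h` from the edge, for all exponents `c` with `|c| N [K : ℚ] < 1`, `N` the dimension of
`H^i(X)`.  So the boundary values of `|L|^c` and `|L|^{-c}` are locally integrable with means over all
intervals whose product is bounded by an absolute constant depending on `c` only (the Muckenhoupt
condition `A_2`), exactly in the range of the exponents in which this holds for `ζ(s)^N`.
It is proved for several `L`-functions together, for the arguments as well as for the absolute values,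
and with any set of Euler factors removed.

`IsFrobenius`, `edgePoint` and `angle` are defined in `Pool/Agent/TH958/BV/Defs.lean`.
-/

set_option autoImplicit false

namespace Pool.Agent.Results.MP_039d94_nt.EdgeHarnack

open NumberField IsDedekindDomain MeasureTheory Filter Topology
open Pool.Agent.TH958.BV

open Classical in
/-- `L_S(Hⁱ(X), s)`, the product over the primes `v ∉ S` of `K` of the Euler factors
`∏_j (1 - α_{v,j} Nv^{-s})⁻¹`, where `α_{v,j}` are the eigenvalues of Frobenius on `Hⁱ(X)`. -/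
noncomputable def LS {K : Type} [Field K] [NumberField K] {N : ℕ}
    (S : Set (HeightOneSpectrum (𝓞 K))) (α : HeightOneSpectrum (𝓞 K) → Fin N → ℂ) (s : ℂ) : ℂ :=
  ∏' v : HeightOneSpectrum (𝓞 K), if v ∈ S then 1 else
    ∏ j, (1 - α v j * (Ideal.absNorm v.asIdeal : ℂ) ^ (-s))⁻¹

open Classical in
/-- `log L_S(Hⁱ(X), s)`, the sum over the primes `v ∉ S` of `K` of
`∑_j -log (1 - α_{v,j} Nv^{-s})`, with the principal value of the logarithm. -/
noncomputable def logLS {K : Type} [Field K] [NumberField K] {N : ℕ}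
    (S : Set (HeightOneSpectrum (𝓞 K))) (α : HeightOneSpectrum (𝓞 K) → Fin N → ℂ) (s : ℂ) : ℂ :=
  ∑' v : HeightOneSpectrum (𝓞 K), if v ∈ S then 0 else
    ∑ j, -Complex.log (1 - α v j * (Ideal.absNorm v.asIdeal : ℂ) ^ (-s))

/-- The mean of the function `f` over the interval of length `h` with the midpoint `t`. -/
noncomputable def mean (t h : ℝ) (f : ℝ → ℝ) : ℝ := (∫ u in (t - h / 2)..(t + h / 2), f u) / h

/-- **The Harnack inequality on the edge.**  Let `X_r`, `r = 1, …, m`, be projective varieties over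
number fields `K_r`, let `N_r` be the dimension of `H^{i_r}(X_r)`, let `S_r` be any set of primes of
`K_r`, let `α_{r,v}` be the eigenvalues of Frobenius on `H^{i_r}(X_r)` at the primes `v ∉ S_r`, let
`L_r(s) = L_{S_r}(H^{i_r}(X_r), s)` and `e_r = i_r/2 + 1`.  Then `L_r(s) = exp (log L_r(s))` for
`Re s > e_r`, and there are functions `λ_r` on the real line with the following properties.

0. Outside a set of real numbers `τ` of Hausdorff dimension `0`, `log L_r(s)` tends to `λ_r(τ)`, and so
   `L_r(s)` tends to `exp λ_r(τ) ≠ 0`, as `s` tends to `e_r + iτ` in any angle in the half-plane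
   `Re s > e_r`.
1. Let `c_r` be complex numbers with `κ = ∑ |c_r| N_r [K_r : ℚ] < 1`.  For all real `t` and
   `0 < h ≤ 1/2`, the function `exp Re ∑ c_r λ_r(u)`, which for real `c_r` is
   `∏ |exp λ_r(u)|^{c_r}`, is integrable on `[t - h/2, t + h/2]`, and its mean over this interval is
   between `(1 - κ) / 1000` and `1000 / (1 - κ)` times `exp Re ∑ c_r log L_r(e_r + h + it)`.
2. Let `c_r` be any complex numbers, `κ = ∑ |c_r| N_r [K_r : ℚ]`, `t` real and `0 < h ≤ 1/2`.  If
   `Re ∑ c_r λ_r(u) ≤ B` for almost all `u` with `|u - t| ≤ h/2`, then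
   `Re ∑ c_r log L_r(e_r + h + it) ≤ B + 16 κ`. -/
theorem result (m : ℕ) (K : Fin m → Type) [∀ r, Field (K r)] [∀ r, NumberField (K r)]
    (n d i N : Fin m → ℕ) (X : ∀ r, Set (MvPolynomial (Fin (n r)) (𝓞 (K r))))
    (S : ∀ r, Set (HeightOneSpectrum (𝓞 (K r))))
    (α : ∀ r, HeightOneSpectrum (𝓞 (K r)) → Fin (N r) → ℂ)
    (_ : ∀ r, ∀ v, v ∉ S r → IsFrobenius (X r) (d r) (i r) v (α r v)) :
    (∀ r, ∀ s : ℂ, (i r : ℝ) / 2 + 1 < s.re → Complex.exp (logLS (S r) (α r) s) = LS (S r) (α r) s) ∧
    ∃ l : Fin m → ℝ → ℂ,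
      (∃ Z : Set ℝ, dimH Z = 0 ∧ ∀ τ : ℝ, τ ∉ Z → ∀ r, ∀ C : ℝ,
        Tendsto (logLS (S r) (α r)) (𝓝[angle (i r) τ C] (edgePoint (i r) τ)) (𝓝 (l r τ)) ∧
        Tendsto (LS (S r) (α r)) (𝓝[angle (i r) τ C] (edgePoint (i r) τ))
          (𝓝 (Complex.exp (l r τ)))) ∧
      ∀ (c : Fin m → ℂ) (κ : ℝ) (_ : κ = ∑ r, ‖c r‖ * (N r * Module.finrank ℚ (K r)))
        (t h : ℝ) (_ : 0 < h) (_ : h ≤ 1 / 2),
        (κ < 1 →
          IntegrableOn (fun u => Real.exp (∑ r, c r * l r u).re)
            (Set.Icc (t - h / 2) (t + h / 2)) ∧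
          (1 - κ) / 1000 * Real.exp (∑ r, c r * logLS (S r) (α r) (edgePoint (i r) t + h)).re ≤
            mean t h (fun u => Real.exp (∑ r, c r * l r u).re) ∧
          mean t h (fun u => Real.exp (∑ r, c r * l r u).re) ≤
            1000 / (1 - κ) *
              Real.exp (∑ r, c r * logLS (S r) (α r) (edgePoint (i r) t + h)).re) ∧
        ∀ B : ℝ, (∀ᵐ u : ℝ, |u - t| ≤ h / 2 → (∑ r, c r * l r u).re ≤ B) →
          (∑ r, c r * logLS (S r) (α r) (edgePoint (i r) t + h)).re ≤ B + 16 * κ := by
  rename_i hα0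
  have hα := fun r => Pool.Agent.N60.EH.norm_of_isFrobenius (hα0 r)
  have hb := fun r => Pool.Agent.N60.EH.norm_b (hα r)
  set b : ∀ r : Fin m, Pool.Agent.TH339.MP.PP → ℂ := fun r =>
    Pool.Agent.TH339.MP.bb (Pool.Agent.Y770.SC.nb (i r) (S r) (α r)) with hbdef
  have hexp : ∀ r, ∀ s : ℂ, (i r : ℝ) / 2 + 1 < s.re →
      Complex.exp (logLS (S r) (α r) s) = LS (S r) (α r) s := fun r s hs =>
    Pool.Agent.N60.EH.exp_LG (hα r) hs
  refine ⟨hexp, fun r => Pool.Agent.TH339.MP.bl (b r), ⟨⋃ r,
    Pool.Agent.W350.Edge.divSet (Pool.Agent.TH339.MP.ap (b r)), ?_, ?_⟩, ?_⟩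
  · rw [dimH_iUnion]
    exact ENNReal.iSup_eq_zero.2 fun r => (Pool.Agent.TH339.MP.boundary (hb r)).2.1
  · intro τ hτ r C
    have hτ' : τ ∉ Pool.Agent.W350.Edge.divSet (Pool.Agent.TH339.MP.ap (b r)) := fun h =>
      hτ (Set.mem_iUnion.2 ⟨r, h⟩)
    have h1 := Pool.Agent.N60.EH.LG_angle (hα r) hτ' C
    refine ⟨h1, ?_⟩
    refine (((Complex.continuous_exp.tendsto _).comp h1)).congr' ?_
    filter_upwards [self_mem_nhdsWithin] with s hs
    exact hexp r s hs.1
  · intro c κ hκ t h hh hh2
    have hL : ∀ r, logLS (S r) (α r) (edgePoint (i r) t + h) =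
        Pool.Agent.TH339.MP.FF (b r) (((1 + h : ℝ) : ℂ) + t * Complex.I) := fun r =>
      Pool.Agent.N60.EH.LG_edge (hα r) hh t
    simp only [hL]
    refine ⟨fun hκ1 => ?_, fun B hB => ?_⟩
    · obtain ⟨h1, h2, h3⟩ := Pool.Agent.N60.EH.joint hb c hh hh2 t (by rw [← hκ]; exact hκ1)
      rw [← hκ] at h2 h3
      refine ⟨h1, ?_, ?_⟩
      · unfold mean
        rw [le_div_iff₀ hh]
        refine le_trans (le_of_eq ?_) h2
        ring
      · unfold mean
        rw [div_le_iff₀ hh]
        refine h3.trans (le_of_eq ?_)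
        ring
    · have h1 := Pool.Agent.N60.EH.joint_localmax hb c hh hh2 t hB
      rw [← hκ] at h1
      exact h1

end Pool.Agent.Results.MP_039d94_nt.EdgeHarnack
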