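import Pool.Agent.N881.RP.Main

/-!
# The modulus on the edge decides the continuation of the L-functions of all varieties

`X` is a projective variety over a number field `K` (for example `K = ℚ`), `e = i/2 + 1`.  The Euler
product `L(H^i(X), s)` converges for `Re s > e`, and on the edge `Re s = e` it has boundary values
`l(τ)`, `s = e + iτ`, outside a set of Hausdorff dimension `0`.  The theorem says that the question
whether `L(H^i(X), s)` continues to `ℂ`, and where the poles of the continuation are, is a question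
about the absolute values `|l(τ)|` only: a meromorphic continuation to `ℂ` exists if and only if
`|l(τ)|²` is almost everywhere equal to a meromorphic function `G` of `τ`, it is holomorphic for
`s ≠ e` if and only if `G` is holomorphic for `τ ≠ 0`, and to the left of the edge it is
`G(-i(s - e)) / conj L(H^i(X), 2e - conj s)`, so that its zeros and poles are those of `G`.

The definitions of `IsEulerSystem`, `LFun`, `edgePoint` and `angle` are in
`Pool/Agent/TH958/BV/Defs.lean`.
-/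

set_option autoImplicit false

namespace Pool.Agent.Results.MP_039d94_nt.EdgeModulus

open NumberField IsDedekindDomain MeasureTheory Filter Topology Polynomial
open scoped ComplexConjugate
open Pool.Agent.TH958.BV

/-- `Λ` is a meromorphic continuation of `L(H^i(X), s)` to `ℂ`. -/
def IsContinuation {K : Type} [Field K] [NumberField K] (B : HeightOneSpectrum (𝓞 K) → ℂ[X])
    (i : ℕ) (Λ : ℂ → ℂ) : Prop :=
  (∀ s, MeromorphicAt Λ s) ∧ ∀ s : ℂ, (i : ℝ) / 2 + 1 < s.re → Λ s = LFun B s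

/-- `G` is a meromorphic function on `ℂ` which is equal to `|l(τ)|²` for almost all real `τ`. -/
def IsSquareModulus (l : ℝ → ℂ) (G : ℂ → ℂ) : Prop :=
  (∀ z, MeromorphicAt G z) ∧ ∀ᵐ τ : ℝ, G τ = ((‖l τ‖ ^ 2 : ℝ) : ℂ)

/-- **The modulus on the edge.**  Let `X` be a projective variety of dimension `d` over a number field
`K`, and let `B_v` be the Euler factors of `L(H^i(X), s)`, with the factors at the finitely many bad
primes arbitrary polynomials `≠ 0` with algebraic coefficients.  There is a function `l` on the real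
line with the following properties.

0. Outside a set of Hausdorff dimension `0`, `l(τ) ≠ 0` and `L(H^i(X), s)` tends to `l(τ)` as `s`
   tends to `i/2 + 1 + iτ` in any angle in the half-plane `Re s > i/2 + 1`.
1. For every real `τ₀`, `L(H^i(X), s)` has a meromorphic continuation to a neighbourhood of
   `i/2 + 1 + iτ₀` if and only if `|l(τ)|²` is almost everywhere near `τ₀` equal to a function which is
   meromorphic at `τ₀`.
2. Let `V` be a set of complex numbers which contains the real line and is closed under conjugation,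
   for example `ℂ` or the strip `|Im z| < δ`.  Then `L(H^i(X), s)` has a continuation which is
   meromorphic at all `s` with `Re s > i/2 + 1` or `-i(s - i/2 - 1) ∈ V` (for example at all `s ∈ ℂ`, or
   for `Re s > i/2 + 1 - δ`) if and only if `|l(τ)|²` is almost everywhere on the real line equal to a
   function which is meromorphic at all `z ∈ V`.
3. Suppose that the Euler factors at the bad primes have no poles for `Re s > i/2 + 1`.
   (a) If `Λ` is a meromorphic continuation of `L(H^i(X), s)` to `ℂ` and `G` is a meromorphic function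
   which is almost everywhere equal to `|l(τ)|²`, then for `Re s < i/2 + 1` the order of `Λ` at `s` is
   the order of `G` at `-i(s - i/2 - 1)`, the order of `G` at a real `τ` is twice the order of `Λ` at
   `i/2 + 1 + iτ`, and `Λ(s) = G(-i(s - i/2 - 1)) / conj L(H^i(X), i + 2 - conj s)` for
   `Re s < i/2 + 1` (where both sides are analytic).
   (b) `L(H^i(X), s)` has the continuation of Q1, that is, a meromorphic continuation to `ℂ` which is
   holomorphic at all `s ≠ i/2 + 1`, and for odd `i` also at `i/2 + 1`, if and only if `|l(τ)|²` is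
   almost everywhere equal to a meromorphic function on `ℂ` which is holomorphic at all `z ≠ 0`, and
   for odd `i` also at `0`. -/
theorem result (K : Type) [Field K] [NumberField K] (n : ℕ)
    (X : Set (MvPolynomial (Fin n) (𝓞 K))) (d i N : ℕ) (B : HeightOneSpectrum (𝓞 K) → ℂ[X])
    (_ : IsEulerSystem X d i N B) :
    ∃ l : ℝ → ℂ,
      (∃ Z : Set ℝ, dimH Z = 0 ∧ ∀ τ : ℝ, τ ∉ Z → l τ ≠ 0 ∧ ∀ C : ℝ,
        Tendsto (LFun B) (𝓝[angle i τ C] (edgePoint i τ)) (𝓝 (l τ))) ∧
      (∀ τ₀ : ℝ,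
        (∃ Λ : ℂ → ℂ, MeromorphicAt Λ (edgePoint i τ₀) ∧
          ∀ᶠ s in 𝓝 (edgePoint i τ₀), (i : ℝ) / 2 + 1 < s.re → Λ s = LFun B s) ↔
        ∃ G : ℂ → ℂ, MeromorphicAt G (τ₀ : ℂ) ∧ ∃ δ : ℝ, 0 < δ ∧
          ∀ᵐ τ : ℝ, |τ - τ₀| < δ → G τ = ((‖l τ‖ ^ 2 : ℝ) : ℂ)) ∧
      (∀ V : Set ℂ, (∀ τ : ℝ, (τ : ℂ) ∈ V) → (∀ z ∈ V, conj z ∈ V) →
        ((∃ Λ : ℂ → ℂ, (∀ s : ℂ, (i : ℝ) / 2 + 1 < s.re ∨
            -Complex.I * (s - ((i : ℂ) / 2 + 1)) ∈ V → MeromorphicAt Λ s) ∧
            ∀ s : ℂ, (i : ℝ) / 2 + 1 < s.re → Λ s = LFun B s) ↔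
          ∃ G : ℂ → ℂ, (∀ z ∈ V, MeromorphicAt G z) ∧
            ∀ᵐ τ : ℝ, G τ = ((‖l τ‖ ^ 2 : ℝ) : ℂ))) ∧
      ((∀ (v : HeightOneSpectrum (𝓞 K)) (s : ℂ), (i : ℝ) / 2 + 1 < s.re →
          (B v).eval ((Ideal.absNorm v.asIdeal : ℂ) ^ (-s)) ≠ 0) →
        (∀ Λ G : ℂ → ℂ, IsContinuation B i Λ → IsSquareModulus l G →
          (∀ s : ℂ, s.re < (i : ℝ) / 2 + 1 → meromorphicOrderAt Λ s =
            meromorphicOrderAt G (-Complex.I * (s - ((i : ℂ) / 2 + 1)))) ∧
          (∀ τ : ℝ, meromorphicOrderAt G (τ : ℂ) =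
            meromorphicOrderAt Λ (edgePoint i τ) + meromorphicOrderAt Λ (edgePoint i τ)) ∧
          ∀ s : ℂ, s.re < (i : ℝ) / 2 + 1 → AnalyticAt ℂ Λ s →
            AnalyticAt ℂ G (-Complex.I * (s - ((i : ℂ) / 2 + 1))) →
            Λ s = G (-Complex.I * (s - ((i : ℂ) / 2 + 1))) /
              conj (LFun B ((i : ℂ) + 2 - conj s))) ∧
        ((∃ Λ, IsContinuation B i Λ ∧ (∀ s, s ≠ (i : ℂ) / 2 + 1 → AnalyticAt ℂ Λ s) ∧
            (Odd i → AnalyticAt ℂ Λ ((i : ℂ) / 2 + 1))) ↔
          ∃ G, IsSquareModulus l G ∧ (∀ z, z ≠ 0 → AnalyticAt ℂ G z) ∧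
            (Odd i → AnalyticAt ℂ G 0))) := by
  rename_i hB
  have hlim := Pool.Agent.N881.RP.bdry_radial hB
  have hne := Pool.Agent.N881.RP.bdry_ne hB
  have hed : ((Pool.Agent.N881.RP.ed i : ℝ) : ℂ) = (i : ℂ) / 2 + 1 := by
    unfold Pool.Agent.N881.RP.ed
    push_cast
    ring
  have hloc : ∀ (V : Set ℂ) (_ : ∀ τ : ℝ, (τ : ℂ) ∈ V) (G : ℂ → ℂ)
      (_ : ∀ z ∈ V, MeromorphicAt G z)
      (_ : ∀ᵐ τ : ℝ, G τ = ((‖Pool.Agent.N881.RP.bdry hB τ‖ ^ 2 : ℝ) : ℂ)), ∀ τ0 : ℝ,
      ∃ ψ : ℂ → ℂ, MeromorphicAt ψ (Pool.Agent.N881.RP.pt (Pool.Agent.N881.RP.ed i) τ0) ∧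
      ∀ᶠ s in 𝓝 (Pool.Agent.N881.RP.pt (Pool.Agent.N881.RP.ed i) (τ0 : ℂ)),
        Pool.Agent.N881.RP.ed i < s.re → ψ s = LFun B s := fun V hV G hG hGl τ0 =>
    Pool.Agent.N881.RP.local_of_modulus hB one_pos (hG _ (hV τ0)) (hGl.mono fun u hu _ => hu)
  have hglueV : ∀ (V : Set ℂ) (_ : ∀ τ : ℝ, (τ : ℂ) ∈ V) (G : ℂ → ℂ)
      (_ : ∀ z ∈ V, MeromorphicAt G z)
      (_ : ∀ᵐ τ : ℝ, G τ = ((‖Pool.Agent.N881.RP.bdry hB τ‖ ^ 2 : ℝ) : ℂ)) (s : ℂ)
      (_ : Pool.Agent.N881.RP.ed i < s.re ∨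
        -Complex.I * (s - ((Pool.Agent.N881.RP.ed i : ℝ) : ℂ)) ∈ V),
      MeromorphicAt (Pool.Agent.N881.RP.glue (LFun B) G (Pool.Agent.N881.RP.ed i)) s :=
    fun V hV G hG hGl s hs => Pool.Agent.N881.RP.glue_meromorphic
      (fun s hs => Pool.Agent.N881.RP.LFun_mero hB hs) hlim hne (hloc V hV G hG hGl) hV hG hGl s hs
  have hglue : ∀ G : ℂ → ℂ, IsSquareModulus (Pool.Agent.N881.RP.bdry hB) G →
      IsContinuation B i (Pool.Agent.N881.RP.glue (LFun B) G (Pool.Agent.N881.RP.ed i)) :=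
    fun G hG => ⟨fun s => hglueV Set.univ (fun _ => Set.mem_univ _) G (fun z _ => hG.1 z) hG.2 s
      (Or.inr (Set.mem_univ _)), fun s hs => Pool.Agent.N881.RP.glue_right hs⟩
  have hsq : ∀ Λ : ℂ → ℂ, IsContinuation B i Λ → IsSquareModulus (Pool.Agent.N881.RP.bdry hB)
      (Pool.Agent.N881.RP.sq Λ (Pool.Agent.N881.RP.ed i)) := fun Λ hΛ =>
    ⟨fun z => Pool.Agent.N881.RP.mero_sq (hΛ.1 _) (hΛ.1 _),
      Pool.Agent.N881.RP.modulus_global hlim (fun _ => hΛ.1 _) hΛ.2⟩
  refine ⟨Pool.Agent.N881.RP.bdry hB, Pool.Agent.N881.RP.bdry_angle hB, fun τ₀ => ⟨?_, ?_⟩,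
    fun V hV hVc => ⟨?_, ?_⟩, fun hfin => ?_⟩
  · rintro ⟨Λ, hΛ, h⟩
    obtain ⟨δ, hδ, h1⟩ := Pool.Agent.N881.RP.modulus_of_cont (τ0 := τ₀) hlim hΛ h
    refine ⟨Pool.Agent.N881.RP.sq Λ (Pool.Agent.N881.RP.ed i), ?_, δ, hδ, ?_⟩
    · refine Pool.Agent.N881.RP.mero_sq hΛ ?_
      rw [Complex.conj_ofReal]
      exact hΛ
    · exact h1.mono fun u hu hlt => (hu hlt).2.2
  · rintro ⟨G, hG, δ, hδ, h⟩
    exact Pool.Agent.N881.RP.local_of_modulus hB hδ hG h
  · rintro ⟨Λ, hΛ, h⟩
    rw [← hed] at hΛ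
    have hpt : ∀ z ∈ V, MeromorphicAt Λ
        (Pool.Agent.N881.RP.pt (Pool.Agent.N881.RP.ed i) z) := by
      intro z hz
      refine hΛ _ (Or.inr ?_)
      rw [Pool.Agent.N881.RP.inv_pt]
      exact hz
    exact ⟨Pool.Agent.N881.RP.sq Λ (Pool.Agent.N881.RP.ed i),
      fun z hz => Pool.Agent.N881.RP.mero_sq (hpt z hz) (hpt _ (hVc z hz)),
      Pool.Agent.N881.RP.modulus_global hlim (fun τ => hpt _ (hV τ)) h⟩
  · rintro ⟨G, hG, hGl⟩
    rw [← hed]
    exact ⟨_, hglueV V hV G hG hGl, fun s hs => Pool.Agent.N881.RP.glue_right hs⟩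
  · have hL : ∀ s : ℂ, Pool.Agent.N881.RP.ed i < s.re → AnalyticAt ℂ (LFun B) s ∧ LFun B s ≠ 0 :=
      fun s hs => Pool.Agent.N881.RP.LFun_analytic hB hfin hs
    have hord : ∀ Λ G : ℂ → ℂ, IsContinuation B i Λ →
        IsSquareModulus (Pool.Agent.N881.RP.bdry hB) G → _ := fun Λ G hΛ hG =>
      Pool.Agent.N881.RP.orders hL hlim hΛ.1 hΛ.2 hG.1 hG.2
    have h2 : (((2 * Pool.Agent.N881.RP.ed i : ℝ)) : ℂ) = (i : ℂ) + 2 := by
      unfold Pool.Agent.N881.RP.ed
      push_cast
      ring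
    refine ⟨fun Λ G hΛ hG => ?_, ⟨?_, ?_⟩⟩
    · obtain ⟨o1, o2, o3⟩ := hord Λ G hΛ hG
      rw [hed, h2] at o3
      rw [hed] at o1
      exact ⟨o1, o2, o3⟩
    · rintro ⟨Λ, hΛ, h3, h4⟩
      have key : ∀ z : ℂ, (z ≠ 0 ∨ Odd i) →
          AnalyticAt ℂ Λ (Pool.Agent.N881.RP.pt (Pool.Agent.N881.RP.ed i) z) := by
        intro z hz
        by_cases h0 : z = 0
        · subst h0
          have e1 : Pool.Agent.N881.RP.pt (Pool.Agent.N881.RP.ed i) 0 = (i : ℂ) / 2 + 1 := by
            unfold Pool.Agent.N881.RP.pt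
            rw [hed]
            ring
          rw [e1]
          rcases hz with hz | hz
          · exact absurd rfl hz
          · exact h4 hz
        · refine h3 _ fun hc => h0 ?_
          have e1 := Pool.Agent.N881.RP.inv_pt (Pool.Agent.N881.RP.ed i) z
          rw [hc, hed, sub_self, mul_zero] at e1
          exact e1.symm
      have key2 : ∀ z : ℂ, (z ≠ 0 ∨ Odd i) → AnalyticAt ℂ
          (Pool.Agent.N881.RP.sq Λ (Pool.Agent.N881.RP.ed i)) z := by
        intro z hz
        have a1 : AnalyticAt ℂ (fun w => Λ (Pool.Agent.N881.RP.pt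
            (Pool.Agent.N881.RP.ed i) w)) z :=
          AnalyticAt.fun_comp (key z hz) (Pool.Agent.N881.RP.pt_analytic _ z)
        have hz' : conj z ≠ 0 ∨ Odd i := by
          rcases hz with hz | hz
          · exact Or.inl ((_root_.map_ne_zero _).2 hz)
          · exact Or.inr hz
        have a2 : AnalyticAt ℂ (fun w => Λ (Pool.Agent.N881.RP.pt
            (Pool.Agent.N881.RP.ed i) w)) (conj z) :=
          AnalyticAt.fun_comp (key _ hz') (Pool.Agent.N881.RP.pt_analytic _ _)
        exact a1.mul (Pool.Agent.N881.RP.analytic_conj a2)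
      exact ⟨_, hsq Λ hΛ, fun z hz => key2 z (Or.inl hz), fun ho => key2 0 (Or.inr ho)⟩
    · rintro ⟨G, hG, h3, h4⟩
      have hΛ := hglue G hG
      obtain ⟨o1, o2, -⟩ := hord _ G hΛ hG
      obtain ⟨Λ', g1, g2, g3⟩ := Pool.Agent.N881.RP.normalise
        (fun s hs => (hL s hs).1) hΛ.1 hΛ.2
      have hnn : ∀ s : ℂ, (s ≠ (i : ℂ) / 2 + 1 ∨ Odd i) → 0 ≤ meromorphicOrderAt
          (Pool.Agent.N881.RP.glue (LFun B) G (Pool.Agent.N881.RP.ed i)) s := by
        intro s hs
        have hGan : ∀ z : ℂ, (z ≠ 0 ∨ Odd i) → AnalyticAt ℂ G z := by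
          intro z hz
          by_cases h0 : z = 0
          · subst h0
            rcases hz with hz | hz
            · exact absurd rfl hz
            · exact h4 hz
          · exact h3 z h0
        rcases lt_trichotomy s.re (Pool.Agent.N881.RP.ed i) with h | h | h
        · rw [o1 s h]
          refine (hGan _ (Or.inl fun hc => ?_)).meromorphicOrderAt_nonneg
          have e1 := Pool.Agent.N881.RP.pt_inv (Pool.Agent.N881.RP.ed i) s
          rw [hc] at e1
          have e2 := congrArg Complex.re e1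
          rw [Pool.Agent.N881.RP.pt_re] at e2
          simp at e2
          linarith
        · have e1 : s = Pool.Agent.N881.RP.pt (Pool.Agent.N881.RP.ed i) (s.im : ℂ) := by
            unfold Pool.Agent.N881.RP.pt
            apply Complex.ext
            · simp [h]
            · simp
          have e2 : ((s.im : ℂ) ≠ 0 ∨ Odd i) := by
            rcases hs with hs | hs
            · left
              intro h0
              apply hs
              rw [e1, h0]
              unfold Pool.Agent.N881.RP.pt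
              rw [hed]
              ring
            · exact Or.inr hs
          have e3 := o2 s.im
          rw [← e1] at e3
          have e4 := (hGan _ e2).meromorphicOrderAt_nonneg
          rw [e3] at e4
          by_contra hneg
          rw [not_le] at hneg
          have : meromorphicOrderAt (Pool.Agent.N881.RP.glue (LFun B) G
              (Pool.Agent.N881.RP.ed i)) s + meromorphicOrderAt (Pool.Agent.N881.RP.glue (LFun B) G
              (Pool.Agent.N881.RP.ed i)) s < 0 + 0 := WithTop.add_lt_add hneg hneg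
          rw [zero_add] at this
          exact absurd e4 (not_le.2 this)
        · have hop : IsOpen {w : ℂ | Pool.Agent.N881.RP.ed i < w.re} :=
            isOpen_lt continuous_const Complex.continuous_re
          have e1 : Pool.Agent.N881.RP.glue (LFun B) G (Pool.Agent.N881.RP.ed i) =ᶠ[𝓝[≠] s]
              LFun B := by
            refine Filter.Eventually.filter_mono nhdsWithin_le_nhds ?_
            filter_upwards [hop.mem_nhds h] with w hw
            exact Pool.Agent.N881.RP.glue_right hw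
          rw [meromorphicOrderAt_congr e1]
          exact (hL s h).1.meromorphicOrderAt_nonneg
      exact ⟨Λ', ⟨g1, g2⟩, fun s hs => g3 s (hnn s (Or.inl hs)),
        fun ho => g3 _ (hnn _ (Or.inr ho))⟩

end Pool.Agent.Results.MP_039d94_nt.EdgeModulus
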