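import Pool.Agent.N60.EH.Local

/-!
# The supremum on the edge of the L-functions of all projective varieties

`X` is a smooth projective variety over a number field `K`, for example over `K = ℚ`.  The Euler
product `L(H^i(X), s)` converges absolutely for `Re s > i/2 + 1`, and on the edge
`Re s = i/2 + 1` it has boundary values `l(τ)`, `s = i/2 + 1 + iτ`, for almost all real `τ`.
Nothing is known in general about a continuation to a neighbourhood of a point of the edge.

The theorem computes the essential supremum of the absolute values of the boundary values on the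
edge, for `L(H^i(X), s)` and for all products of powers of such functions, as the product of the
suprema of the Euler factors, and derives that `L(H^i(X), s)` is determined by the absolute values of
its boundary values: if `|l_X(τ)| ≤ |l_Y(τ)|` for almost all `τ`, then `L_X = L_Y`.

`IsFrobenius`, `edgePoint` and `angle` are defined in `Pool/Agent/TH958/BV/Defs.lean`.
-/

set_option autoImplicit false

namespace Pool.Agent.Results.MP_039d94_nt.EdgeSupremum

open NumberField IsDedekindDomain MeasureTheory Filter Topology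
open Pool.Agent.TH958.BV

open Classical in
/-- `L_S(Hⁱ(X), s)`, the product over the primes `v ∉ S` of `K` of the Euler factors
`∏_j (1 - α_{v,j} Nv^{-s})⁻¹`, where `α_{v,j}` are the eigenvalues of Frobenius on `Hⁱ(X)`. -/
noncomputable def LS {K : Type} [Field K] [NumberField K] {N : ℕ}
    (S : Set (HeightOneSpectrum (𝓞 K))) (α : HeightOneSpectrum (𝓞 K) → Fin N → ℂ) (s : ℂ) : ℂ :=
  ∏' v : HeightOneSpectrum (𝓞 K), if v ∈ S then 1 else
    ∏ j, (1 - α v j * (Ideal.absNorm v.asIdeal : ℂ) ^ (-s))⁻¹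

open Classical in
/-- `log L_S(Hⁱ(X), s)`, the sum over the primes `v ∉ S` of `K` of
`∑_j -log (1 - α_{v,j} Nv^{-s})`, with the principal value of the logarithm. -/
noncomputable def logLS {K : Type} [Field K] [NumberField K] {N : ℕ}
    (S : Set (HeightOneSpectrum (𝓞 K))) (α : HeightOneSpectrum (𝓞 K) → Fin N → ℂ) (s : ℂ) : ℂ :=
  ∑' v : HeightOneSpectrum (𝓞 K), if v ∈ S then 0 else
    ∑ j, -Complex.log (1 - α v j * (Ideal.absNorm v.asIdeal : ℂ) ^ (-s))

open Classical in
/-- The logarithm of the Euler factor of `L_S(Hⁱ(X), s)` at the rational prime `p` at the point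
`s = i/2 + 1 + it` of the edge: the (finite) sum over the primes `v ∉ S` of `K` above `p` of
`∑_j -log (1 - α_{v,j} Nv^{-s})`. -/
noncomputable def localLog {K : Type} [Field K] [NumberField K] {N : ℕ} (i : ℕ)
    (S : Set (HeightOneSpectrum (𝓞 K))) (α : HeightOneSpectrum (𝓞 K) → Fin N → ℂ) (p : ℕ)
    (t : ℝ) : ℂ :=
  ∑' v : HeightOneSpectrum (𝓞 K), if v ∉ S ∧ p ∣ Ideal.absNorm v.asIdeal then
    ∑ j, -Complex.log (1 - α v j * (Ideal.absNorm v.asIdeal : ℂ) ^ (-(edgePoint i t))) else 0

open Classical in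
/-- The normalised trace of Frobenius at the rational prime `p`: the sum over the primes `v ∉ S` of `K`
with `Nv = p` of `∑_j α_{v,j}`, divided by `p^{i/2}`. -/
noncomputable def trace {K : Type} [Field K] [NumberField K] {N : ℕ} (i : ℕ)
    (S : Set (HeightOneSpectrum (𝓞 K))) (α : HeightOneSpectrum (𝓞 K) → Fin N → ℂ) (p : ℕ) : ℂ :=
  (∑' v : HeightOneSpectrum (𝓞 K), if v ∉ S ∧ Ideal.absNorm v.asIdeal = p then ∑ j, α v j else 0) /
    (((p : ℝ) ^ ((i : ℝ) / 2) : ℝ) : ℂ)

/-- **The supremum on the edge.**  Let `X_r`, `r = 1, …, m`, be projective varieties over number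
fields `K_r`, let `S_r` be any set of primes of `K_r`, let `α_{r,v}` be the eigenvalues of Frobenius on
`H^{i_r}(X_r)` at the primes `v ∉ S_r`, let `L_r(s) = L_{S_r}(H^{i_r}(X_r), s)` and
`e_r = i_r/2 + 1`.  Then `L_r(s) = exp (log L_r(s))` for `Re s > e_r`, and there are functions `λ_r` on
the real line with the following properties.

0. Outside a set of real numbers `τ` of Hausdorff dimension `0`, `log L_r(s)` tends to `λ_r(τ)`, and so
   `L_r(s)` tends to `exp λ_r(τ) ≠ 0`, as `s` tends to `e_r + iτ` in any angle in the half-plane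
   `Re s > e_r`.

Let `c_r` be complex numbers.  (If they are real, then `Re ∑ c_r λ_r(τ)` is the logarithm of
`∏ |exp λ_r(τ)|^{c_r}`.)

1. For every real `B`, the following three statements are equivalent: `Re ∑ c_r λ_r(τ) ≤ B` for almost
   all real `τ`; `Re ∑ c_r log L_r(e_r + w) ≤ B` for all `w` with `Re w > 0`; the sum over `p ∈ P` of
   `Re ∑ c_r log L_{r,p}(e_r + i t_p)` is at most `B` for all finite sets `P` of prime numbers and all
   real numbers `t_p`, where `L_{r,p}` is the Euler factor at `p`.  So the essential supremum of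
   `Re ∑ c_r λ_r` is the sum over all prime numbers of the suprema of the same expression in the Euler
   factors at `p`.
2. If it is finite, then the sum over all prime numbers `p` of `|∑ c_r a_r(p)| / p` converges, where
   `a_r(p)` is the normalised trace of Frobenius, and `∑ c_r log L_r(e_r + w)` extends to a bounded
   continuous function on the closed half-plane `Re w ≥ 0`.
3. If `Re ∑ c_r λ_r(τ) ≤ 0` for almost all real `τ`, then `∑ c_r log L_r(e_r + w) = 0` for all `w` with
   `Re w > 0`.  For example, if `|exp λ_1(τ)| ≤ |exp λ_2(τ)|` for almost all `τ`, then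
   `L_1(e_1 + w) = L_2(e_2 + w)`. -/
theorem result (m : ℕ) (K : Fin m → Type) [∀ r, Field (K r)] [∀ r, NumberField (K r)]
    (n d i N : Fin m → ℕ) (X : ∀ r, Set (MvPolynomial (Fin (n r)) (𝓞 (K r))))
    (S : ∀ r, Set (HeightOneSpectrum (𝓞 (K r))))
    (α : ∀ r, HeightOneSpectrum (𝓞 (K r)) → Fin (N r) → ℂ)
    (_ : ∀ r, ∀ v, v ∉ S r → IsFrobenius (X r) (d r) (i r) v (α r v)) :
    (∀ r, ∀ s : ℂ, (i r : ℝ) / 2 + 1 < s.re → Complex.exp (logLS (S r) (α r) s) = LS (S r) (α r) s) ∧
    ∃ l : Fin m → ℝ → ℂ,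
      (∃ Z : Set ℝ, dimH Z = 0 ∧ ∀ τ : ℝ, τ ∉ Z → ∀ r, ∀ C : ℝ,
        Tendsto (logLS (S r) (α r)) (𝓝[angle (i r) τ C] (edgePoint (i r) τ)) (𝓝 (l r τ)) ∧
        Tendsto (LS (S r) (α r)) (𝓝[angle (i r) τ C] (edgePoint (i r) τ))
          (𝓝 (Complex.exp (l r τ)))) ∧
      ∀ c : Fin m → ℂ,
        (∀ B : ℝ, List.TFAE [
          ∀ᵐ τ : ℝ, (∑ r, c r * l r τ).re ≤ B,
          ∀ w : ℂ, 0 < w.re → (∑ r, c r * logLS (S r) (α r) ((i r : ℂ) / 2 + 1 + w)).re ≤ B,
          ∀ (P : Finset Nat.Primes) (t : Nat.Primes → ℝ),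
            ∑ p ∈ P, (∑ r, c r * localLog (i r) (S r) (α r) p (t p)).re ≤ B]) ∧
        (∀ B : ℝ, (∀ᵐ τ : ℝ, (∑ r, c r * l r τ).re ≤ B) →
          (Summable fun p : Nat.Primes => ‖∑ r, c r * trace (i r) (S r) (α r) p‖ / (p : ℕ)) ∧
          ∃ Φ : ℂ → ℂ, ContinuousOn Φ {w : ℂ | 0 ≤ w.re} ∧
            (∃ C : ℝ, ∀ w : ℂ, 0 ≤ w.re → ‖Φ w‖ ≤ C) ∧
            ∀ w : ℂ, 0 < w.re → Φ w = ∑ r, c r * logLS (S r) (α r) ((i r : ℂ) / 2 + 1 + w)) ∧
        ((∀ᵐ τ : ℝ, (∑ r, c r * l r τ).re ≤ 0) → ∀ w : ℂ, 0 < w.re →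
          ∑ r, c r * logLS (S r) (α r) ((i r : ℂ) / 2 + 1 + w) = 0) := by
  rename_i hα0
  have hα := fun r => Pool.Agent.N60.EH.norm_of_isFrobenius (hα0 r)
  have hb := fun r => Pool.Agent.N60.EH.norm_b (hα r)
  set b : ∀ r : Fin m, Pool.Agent.TH339.MP.PP → ℂ := fun r =>
    Pool.Agent.TH339.MP.bb (Pool.Agent.Y770.SC.nb (i r) (S r) (α r)) with hbdef
  have hexp : ∀ r, ∀ s : ℂ, (i r : ℝ) / 2 + 1 < s.re →
      Complex.exp (logLS (S r) (α r) s) = LS (S r) (α r) s := fun r s hs =>
    Pool.Agent.N60.EH.exp_LG (hα r) hs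
  refine ⟨hexp, fun r => Pool.Agent.TH339.MP.bl (b r), ⟨⋃ r,
    Pool.Agent.W350.Edge.divSet (Pool.Agent.TH339.MP.ap (b r)), ?_, ?_⟩, ?_⟩
  · rw [dimH_iUnion]
    exact ENNReal.iSup_eq_zero.2 fun r => (Pool.Agent.TH339.MP.boundary (hb r)).2.1
  · intro τ hτ r C
    have hτ' : τ ∉ Pool.Agent.W350.Edge.divSet (Pool.Agent.TH339.MP.ap (b r)) := fun h =>
      hτ (Set.mem_iUnion.2 ⟨r, h⟩)
    have h1 := Pool.Agent.N60.EH.LG_angle (hα r) hτ' C
    refine ⟨h1, ?_⟩
    refine (((Complex.continuous_exp.tendsto _).comp h1)).congr' ?_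
    filter_upwards [self_mem_nhdsWithin] with s hs
    exact hexp r s hs.1
  · intro c
    set B0 := Pool.Agent.N60.EH.cb c b with hB0
    have hcb := Pool.Agent.N60.EH.norm_cb hb c
    have hae := Pool.Agent.N60.EH.ae_bl_cb hb c
    have hbd : ∀ B : ℝ, (∀ᵐ τ : ℝ, (∑ r, c r * Pool.Agent.TH339.MP.bl (b r) τ).re ≤ B) ↔
        ∀ᵐ τ : ℝ, (Pool.Agent.TH339.MP.bl B0 τ).re ≤ B := by
      intro B
      constructor
      · intro h
        filter_upwards [h, hae] with τ h1 h2
        rw [h2]
        exact h1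
      · intro h
        filter_upwards [h, hae] with τ h1 h2
        rw [← h2]
        exact h1
    have hL : ∀ w : ℂ, 0 < w.re → ∑ r, c r * logLS (S r) (α r) ((i r : ℂ) / 2 + 1 + w) =
        Pool.Agent.TH339.MP.FF B0 (1 + w) := by
      intro w hw
      rw [hB0, Pool.Agent.N60.EH.FF_cb hb c (by
        rw [Complex.add_re, Complex.one_re]
        linarith)]
      exact Finset.sum_congr rfl fun r _ => by
        rw [← Pool.Agent.N60.EH.LG_shift (hα r) hw]
        rfl
    have hH : ∀ B : ℝ, (∀ w : ℂ, 0 < w.re →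
        (∑ r, c r * logLS (S r) (α r) ((i r : ℂ) / 2 + 1 + w)).re ≤ B) ↔
        ∀ s : ℂ, 1 < s.re → (Pool.Agent.TH339.MP.FF B0 s).re ≤ B := by
      intro B
      constructor
      · intro h s hs
        have h1 : 0 < (s - 1).re := by
          rw [Complex.sub_re, Complex.one_re]
          linarith
        have h2 := h (s - 1) h1
        rw [hL _ h1, add_sub_cancel] at h2
        exact h2
      · intro h w hw
        rw [hL w hw]
        refine h _ ?_
        rw [Complex.add_re, Complex.one_re]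
        linarith
    have hP : ∀ (p : Nat.Primes) (t : ℝ), Pool.Agent.N60.EH.GG B0 p (((1 : ℝ) : ℂ) +
        t * Complex.I) = ∑ r, c r * localLog (i r) (S r) (α r) p t := by
      intro p t
      rw [hB0, Pool.Agent.N60.EH.GG_cb hb c p (by simp)]
      exact Finset.sum_congr rfl fun r _ => by
        rw [Pool.Agent.N60.EH.GG_eq_LL (hα r) p t]
        rfl
    refine ⟨fun B => ?_, fun B hB => ?_, fun h0 w hw => ?_⟩
    · have h1 := Pool.Agent.N60.EH.edge_sup hcb B
      have h2 : (∀ (P : Finset Nat.Primes) (t : Nat.Primes → ℝ),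
          ∑ p ∈ P, (∑ r, c r * localLog (i r) (S r) (α r) p (t p)).re ≤ B) ↔
          ∀ (P : Finset Nat.Primes) (u : Nat.Primes → ℝ),
            ∑ p ∈ P, (Pool.Agent.N60.EH.GG B0 p (((1 : ℝ) : ℂ) + u p * Complex.I)).re ≤ B := by
        simp only [hP]
      rw [hbd B, hH B, h2]
      exact h1
    · have hsum := Pool.Agent.N60.EH.summable_of_edge hcb ((hbd B).1 hB)
      refine ⟨?_, fun w => Pool.Agent.TH339.MP.FF B0 (1 + w), ?_,
        ⟨∑' x, ‖B0 x‖ * Pool.Agent.TH339.MP.wt 1 x, fun w hw => ?_⟩, fun w hw => (hL w hw).symm⟩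
      · have h1 : Summable fun p : Nat.Primes => ‖B0 (p, 0)‖ *
            Pool.Agent.TH339.MP.wt 1 (p, 0) :=
          hsum.comp_injective (i := fun p : Nat.Primes => ((p, 0) : Pool.Agent.TH339.MP.PP))
            fun p q h => congrArg Prod.fst h
        refine h1.congr fun p => ?_
        have h2 : B0 (p, 0) = ∑ r, c r * trace (i r) (S r) (α r) p := by
          rw [hB0]
          unfold Pool.Agent.N60.EH.cb
          exact Finset.sum_congr rfl fun r _ => by
            rw [hbdef]
            simp only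
            rw [Pool.Agent.N60.EH.b_eq_TR]
            rfl
        have h3 : Pool.Agent.TH339.MP.wt 1 (p, 0) = ((p : ℕ) : ℝ)⁻¹ := by
          unfold Pool.Agent.TH339.MP.wt
          simp [Real.rpow_neg_one]
        rw [h2, h3, div_eq_mul_inv]
      · refine (Pool.Agent.N60.EH.FF_continuousOn hsum).comp (by fun_prop) fun w hw => ?_
        change 1 ≤ (1 + w).re
        rw [Complex.add_re, Complex.one_re]
        have : 0 ≤ w.re := hw
        linarith
      · unfold Pool.Agent.TH339.MP.FF
        refine tsum_of_norm_bounded hsum.hasSum fun x => ?_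
        refine Pool.Agent.N60.EH.norm_tm_le _ ?_ x
        rw [Complex.add_re, Complex.one_re]
        linarith
    · rw [hL w hw]
      refine Pool.Agent.N60.EH.edge_rigid hcb ((hbd 0).1 h0) ?_
      rw [Complex.add_re, Complex.one_re]
      linarith

end Pool.Agent.Results.MP_039d94_nt.EdgeSupremum
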